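import Pool.Agent.H42R3.KPart3

/-!
# Countable blocks in uncountable groups, and disjoint selections
-/

set_option autoImplicit false

namespace Pool.Agent.Y839.LP
open scoped Pointwise Cardinal
open Cardinal Pool.Agent.H42R3.KPart

universe u v w

section abstract_part

/-- a sequence of infinite sets has a system of distinct representatives -/
lemma seq_rep {V : Type v} (S : ℕ → Set V) (hS : ∀ n, (S n).Infinite) :
    ∃ f : ℕ → V, Function.Injective f ∧ ∀ n, f n ∈ S n := by
  classical
  have ex : ∀ (n : ℕ) (F : Finset V), ∃ x, x ∈ S n ∧ x ∉ F := fun n F =>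
    (hS n).exists_notMem_finset F
  choose g hg1 hg2 using ex
  let F : ℕ → Finset V := fun n => Nat.rec ∅ (fun n F => insert (g n F) F) n
  have hF : ∀ n, F (n + 1) = insert (g n (F n)) (F n) := fun n => rfl
  have hmono : ∀ m n, m ≤ n → F m ⊆ F n := by
    intro m n hmn
    induction hmn with
    | refl => exact subset_rfl
    | step _ ih => exact ih.trans (by rw [hF]; exact Finset.subset_insert _ _)
  have hlt : ∀ m n, m < n → g m (F m) ≠ g n (F n) := by
    intro m n hmn h
    apply hg2 n (F n)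
    rw [← h]
    apply hmono (m + 1) n hmn
    rw [hF]
    exact Finset.mem_insert_self _ _
  refine ⟨fun n => g n (F n), ?_, fun n => hg1 n (F n)⟩
  intro m n h
  rcases lt_trichotomy m n with h1 | h1 | h1
  · exact absurd h (hlt m n h1)
  · exact h1
  · exact absurd h.symm (hlt n m h1)

/-- A family of countable infinite sets, every point of which is in countably many members, has
pairwise disjoint infinite subsets. -/
lemma disj_inf {V : Type v} {I : Type w} (B : I → Set V) (h1 : ∀ i, (B i).Infinite)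
    (h2 : ∀ i, (B i).Countable) (h3 : ∀ x, {i | x ∈ B i}.Countable) :
    ∃ B' : I → Set V, (∀ i, B' i ⊆ B i) ∧ (∀ i, (B' i).Infinite) ∧
      ∀ i i', i ≠ i' → Disjoint (B' i) (B' i') := by
  classical
  let r : I → I → Prop := fun i i' => (B i ∩ B i').Nonempty
  have hr : ∀ i i', r i i' → r i' i := fun i i' h => by
    simpa [r, Set.inter_comm] using h
  have hrc : ∀ i, {i' | r i i'}.Countable := by
    intro i
    have : {i' | r i i'} ⊆ ⋃ x ∈ B i, {i' | x ∈ B i'} := by
      rintro i' ⟨x, hx, hx'⟩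
      exact Set.mem_biUnion hx hx'
    exact ((h2 i).biUnion fun x _ => h3 x).mono this
  have hcl : ∀ i, {i' | Relation.ReflTransGen r i i'}.Countable := by
    intro i
    let N : ℕ → Set I := fun n => Nat.rec {i} (fun _ s => ⋃ i' ∈ s, {i'' | r i' i''}) n
    have hN : ∀ n, N (n + 1) = ⋃ i' ∈ N n, {i'' | r i' i''} := fun n => rfl
    have hNc : ∀ n, (N n).Countable := by
      intro n
      induction n with
      | zero => exact Set.countable_singleton i
      | succ n ih => rw [hN]; exact ih.biUnion fun i' _ => hrc i'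
    refine (Set.countable_iUnion hNc).mono ?_
    intro i' h
    induction h with
    | refl => exact Set.mem_iUnion.2 ⟨0, rfl⟩
    | tail _ h ih =>
      obtain ⟨n, hn⟩ := Set.mem_iUnion.1 ih
      refine Set.mem_iUnion.2 ⟨n + 1, ?_⟩
      rw [hN]
      exact Set.mem_biUnion hn h
  have hsymm : ∀ i i', Relation.ReflTransGen r i i' → Relation.ReflTransGen r i' i := by
    intro i i' h
    induction h with
    | refl => exact Relation.ReflTransGen.refl
    | tail _ h ih => exact Relation.ReflTransGen.head (hr _ _ h) ih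
  let s : Setoid I := ⟨Relation.ReflTransGen r, fun i => Relation.ReflTransGen.refl,
    fun h => hsymm _ _ h, fun h h' => h.trans h'⟩
  have hq : ∀ q : Quotient s, ∃ e : ℕ → I, Set.range e = {i | (Quotient.mk s i) = q} := by
    intro q
    obtain ⟨i, rfl⟩ := Quotient.exists_rep q
    have hc : {i' | (Quotient.mk s i') = Quotient.mk s i}.Countable := by
      refine (hcl i).mono ?_
      intro i' h
      exact hsymm _ _ (Quotient.exact h)
    obtain ⟨e, he⟩ := hc.exists_eq_range ⟨i, rfl⟩
    exact ⟨e, he.symm⟩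
  choose e he using hq
  have hf : ∀ q : Quotient s, ∃ f : ℕ → V, Function.Injective f ∧
      ∀ k, f k ∈ B (e q (Nat.unpair k).1) := fun q => seq_rep _ fun k => h1 _
  choose f hf1 hf2 using hf
  refine ⟨fun i => {x | ∃ k, e (Quotient.mk s i) (Nat.unpair k).1 = i ∧
    x = f (Quotient.mk s i) k}, ?_, ?_, ?_⟩
  · rintro i x ⟨k, hk, rfl⟩
    have := hf2 (Quotient.mk s i) k
    rwa [hk] at this
  · intro i
    obtain ⟨n, hn⟩ : ∃ n, e (Quotient.mk s i) n = i := by
      have : i ∈ Set.range (e (Quotient.mk s i)) := by rw [he]; rfl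
      exact this
    refine Set.infinite_of_injective_forall_mem (f := fun m : ℕ =>
      f (Quotient.mk s i) (Nat.pair n m)) ?_ ?_
    · intro m m' h
      have h4 := hf1 _ h
      have h5 := congrArg (fun k => (Nat.unpair k).2) h4
      simpa using h5
    · intro m
      exact ⟨Nat.pair n m, by rw [Nat.unpair_pair]; exact hn, rfl⟩
  · intro i i' hne
    rw [Set.disjoint_left]
    rintro x ⟨k, hk, hx⟩ ⟨k', hk', hx'⟩
    by_cases hq : (Quotient.mk s i) = Quotient.mk s i'
    · rw [hq] at hk hx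
      have h4 := hf1 _ (hx.symm.trans hx')
      rw [h4] at hk
      exact hne (hk.symm.trans hk')
    · apply hq
      apply Quotient.sound
      have h5 := hf2 (Quotient.mk s i) k
      have h6 := hf2 (Quotient.mk s i') k'
      rw [hk, ← hx] at h5
      rw [hk', ← hx'] at h6
      exact Relation.ReflTransGen.single ⟨x, h5, h6⟩

end abstract_part

variable {G : Type u} [Group G]

lemma closure_countable (S : Set G) (hS : S.Countable) : (Subgroup.closure S : Set G).Countable := by
  classical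
  have : Countable S := hS.to_subtype
  have h1 : (Subgroup.closure S : Set G) = Set.range (FreeGroup.lift (Subtype.val : S → G)) := by
    rw [← MonoidHom.coe_range, FreeGroup.range_lift_eq_closure, Subtype.range_coe]
  rw [h1]
  have : Countable (FreeGroup S) := by
    apply Function.Injective.countable (FreeGroup.toWord_injective (α := S))
  exact Set.countable_range _

lemma ctb_inv {S : Set G} (h : S.Countable) : S⁻¹.Countable := by
  rw [← Set.image_inv_eq_inv]
  exact h.image _

lemma inf_inv {S : Set G} (h : S.Infinite) : S⁻¹.Infinite := by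
  rw [← Set.image_inv_eq_inv]
  exact h.image inv_injective.injOn

omit [Group G] in
lemma not_countable_univ (hκ : ℵ₀ < #G) {S : Set G} (hS : S.Countable) : S ≠ Set.univ := by
  rintro rfl
  have h1 : #(Set.univ : Set G) ≤ ℵ₀ := Cardinal.le_aleph0_iff_set_countable.2 hS
  rw [Cardinal.mk_univ] at h1
  exact absurd hκ (not_lt.2 h1)

/-- a left `ℵ₁`-large set has infinitely many elements in each coset of a countable subgroup -/
lemma exists_C (hκ : ℵ₀ < #G) (X : Set G) (hX : ∃ F : Set G, F.Countable ∧ F * X = Set.univ) :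
    ∃ C : Subgroup G, (C : Set G).Countable ∧ ∀ g : G, (X ∩ RC C g).Infinite := by
  classical
  obtain ⟨F, hF, hFX⟩ := hX
  set C0 : Subgroup G := Subgroup.closure F with hC0
  have hC0c : (C0 : Set G).Countable := closure_countable F hF
  have hmeet : ∀ g : G, ∃ x ∈ X, x * g⁻¹ ∈ C0 := by
    intro g
    have h1 : g ∈ F * X := by rw [hFX]; trivial
    obtain ⟨f, hf, x, hx, rfl⟩ := Set.mem_mul.1 h1
    refine ⟨x, hx, ?_⟩
    have : x * (f * x)⁻¹ = f⁻¹ := by group
    rw [this]
    exact inv_mem (Subgroup.subset_closure hf)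
  obtain ⟨s, -, hs⟩ := exists_seq_of_forall_finset_exists (α := G) (fun _ => True)
    (fun x y => y * x⁻¹ ∉ C0) (by
      intro t _
      by_contra hcon
      push Not at hcon
      apply not_countable_univ hκ (S := ⋃ x ∈ t, (fun c => c * x) '' (C0 : Set G))
        (t.countable_toSet.biUnion fun x _ => hC0c.image _)
      rw [Set.eq_univ_iff_forall]
      intro y
      obtain ⟨x, hx, hyx⟩ := hcon y trivial
      exact Set.mem_biUnion (Finset.mem_coe.2 hx) ⟨y * x⁻¹, hyx, by group⟩)
  refine ⟨Subgroup.closure ((C0 : Set G) ∪ Set.range s), closure_countable _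
    (hC0c.union (Set.countable_range s)), fun g => ?_⟩
  choose x hx1 hx2 using hmeet
  have hne : ∀ m n, m < n → x (s m * g) ≠ x (s n * g) := by
    intro m n hmn h
    apply hs m n hmn
    have h1 := hx2 (s m * g)
    have h2 := hx2 (s n * g)
    rw [h] at h1
    have h3 : s n * (s m)⁻¹ = (x (s n * g) * (s n * g)⁻¹)⁻¹ * (x (s n * g) * (s m * g)⁻¹) := by
      group
    rw [h3]
    exact mul_mem (inv_mem h2) h1
  refine Set.infinite_of_injective_forall_mem (f := fun n : ℕ => x (s n * g)) ?_ ?_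
  · intro m n h
    rcases lt_trichotomy m n with h1 | h1 | h1
    · exact absurd h (hne m n h1)
    · exact h1
    · exact absurd h.symm (hne n m h1)
  · intro n
    refine ⟨hx1 _, ?_⟩
    change x (s n * g) * g⁻¹ ∈ Subgroup.closure ((C0 : Set G) ∪ Set.range s)
    have h1 : x (s n * g) * g⁻¹ = (x (s n * g) * (s n * g)⁻¹) * s n := by group
    rw [h1]
    exact mul_mem (Subgroup.subset_closure (Or.inl (hx2 _)))
      (Subgroup.subset_closure (Or.inr ⟨n, rfl⟩))

/-- the choice of the elements `h` -/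
lemma exists_h (hκ : ℵ₀ < #G) {I : Type u} [LinearOrder I] [WellFoundedLT I]
    (hI : ∀ i : I, #(Set.Iic i) < #G) (C : I → Set G) (hC : ∀ i, (C i).Countable) :
    ∃ h : I → G, ∀ j, h j ∉ Subgroup.closure ((⋃ j' ∈ Set.Iic j, C j') ∪ h '' Set.Iio j) := by
  classical
  have ex : ∀ (j : I) (S : Set G), #S < #G →
      ∃ x, x ∉ Subgroup.closure ((⋃ j' ∈ Set.Iic j, C j') ∪ S) := by
    intro j S hS
    by_contra hcon
    push Not at hcon
    have h1 : #(Subgroup.closure ((⋃ j' ∈ Set.Iic j, C j') ∪ S)) < #G := by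
      apply mk_closure_lt _ hκ
      refine (Cardinal.mk_union_le _ _).trans_lt ?_
      apply Cardinal.add_lt_of_lt hκ.le _ hS
      refine (Cardinal.mk_biUnion_le _ _).trans_lt ?_
      apply Cardinal.mul_lt_of_lt hκ.le (hI j)
      refine lt_of_le_of_lt ?_ hκ
      apply ciSup_le'
      intro x
      exact Cardinal.le_aleph0_iff_set_countable.2 (hC _)
    have h2 : #G ≤ #(Subgroup.closure ((⋃ j' ∈ Set.Iic j, C j') ∪ S)) :=
      Cardinal.mk_le_of_injective (f := fun x : G =>
        (⟨x, hcon x⟩ : Subgroup.closure ((⋃ j' ∈ Set.Iic j, C j') ∪ S)))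
        fun a b hab => congrArg Subtype.val hab
    exact absurd (h2.trans_lt h1) (lt_irrefl _)
  have hlt : ∀ (j : I) (f : Set.Iio j → G), #(Set.range f) < #G := fun j f =>
    (Cardinal.mk_range_le.trans (Cardinal.mk_le_mk_of_subset Set.Iio_subset_Iic_self)).trans_lt
      (hI j)
  let h : I → G := (wellFounded_lt (α := I)).fix (fun j ih =>
    Classical.choose (ex j (Set.range fun j' : Set.Iio j => ih j'.1 j'.2) (hlt j _)))
  have hh : ∀ j, h j = Classical.choose (ex j (Set.range fun j' : Set.Iio j => h j'.1)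
      (hlt j _)) := fun j => WellFounded.fix_eq _ _ _
  refine ⟨h, fun j => ?_⟩
  have h1 := Classical.choose_spec (ex j (Set.range fun j' : Set.Iio j => h j'.1) (hlt j _))
  rw [← hh j] at h1
  have h2 : (Set.range fun j' : Set.Iio j => h j'.1) = h '' Set.Iio j := by
    ext x
    constructor
    · rintro ⟨j', rfl⟩
      exact ⟨j'.1, j'.2, rfl⟩
    · rintro ⟨j', hj', rfl⟩
      exact ⟨⟨j', hj'⟩, rfl⟩
  rwa [h2] at h1

/-- **Blocks.** -/
lemma blocks (hκ : ℵ₀ < #G) {I : Type u} [LinearOrder I] [WellFoundedLT I]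
    (hI : ∀ i : I, #(Set.Iic i) < #G) (X : I → Set G)
    (hX : ∀ i, ∃ F : Set G, F.Countable ∧ F * X i = Set.univ) :
    ∃ (Ib : Type u) (B : Ib → Set G) (a : Ib → I), (∀ p, (B p).Infinite) ∧
      (∀ p, (B p).Countable) ∧ (∀ p, B p ⊆ X (a p)) ∧ (∀ x, {p | x ∈ B p}.Countable) ∧
      ∀ j, ∃ F : Set G, F.Countable ∧ ∀ S : Set G,
        (∀ p, a p = j → (S ∩ B p).Nonempty) → F * S = Set.univ := by
  classical
  choose C hCc hXC using fun i => exists_C hκ (X i) (hX i)
  obtain ⟨h, hh⟩ := exists_h hκ hI (fun i => (C i : Set G)) hCc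
  set H : I → Subgroup G := fun i =>
    Subgroup.closure ((⋃ j' ∈ Set.Iic i, (C j' : Set G)) ∪ h '' Set.Iio i) with hH
  set K : I → Subgroup G := fun i =>
    Subgroup.closure ((⋃ j' ∈ Set.Iic i, (C j' : Set G)) ∪ h '' Set.Iic i) with hK
  have hHK : ∀ i, H i ≤ K i := fun i => Subgroup.closure_mono
    (Set.union_subset_union_right _ (Set.image_mono Set.Iio_subset_Iic_self))
  have hKH : ∀ i j, i < j → K i ≤ H j := fun i j hij => Subgroup.closure_mono
    (Set.union_subset_union (Set.biUnion_subset_biUnion_left (Set.Iic_subset_Iic.2 hij.le))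
      (Set.image_mono (Set.Iic_subset_Iio.2 hij)))
  have hhK : ∀ i, h i ∈ K i := fun i => Subgroup.subset_closure
    (Or.inr (Set.mem_image_of_mem _ (le_refl i)))
  have hCH : ∀ i, C i ≤ H i := fun i c hc => Subgroup.subset_closure
    (Or.inl (Set.mem_biUnion (Set.mem_Iic.2 le_rfl) hc))
  -- the levels at which the least element changes
  set Ch : G → Set I := fun g => {i | lr (H i) g ≠ lr (K i) g} with hCh
  have hChfin : ∀ g, (Ch g).Finite := by
    intro g
    rw [← Set.finite_coe_iff]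
    have hdec : ∀ i j : Ch g, i < j →
        WellOrderingRel (lr (H j.1) g) (lr (H i.1) g) := by
      intro i j hij
      have hlt : i.1 < j.1 := hij
      have h1 : ¬ WellOrderingRel (lr (K i.1) g) (lr (H j.1) g) := lr_mono _ _ (hKH _ _ hlt) g
      have h2 : ¬ WellOrderingRel (lr (H i.1) g) (lr (K i.1) g) := lr_mono _ _ (hHK _) g
      have h3 : lr (H i.1) g ≠ lr (K i.1) g := i.2
      rcases trichotomous_of (WellOrderingRel : G → G → Prop) (lr (H i.1) g) (lr (K i.1) g)
        with h4 | h4 | h4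
      · exact absurd h4 h2
      · exact absurd h4 h3
      · rcases trichotomous_of (WellOrderingRel : G → G → Prop) (lr (K i.1) g)
          (lr (H j.1) g) with h5 | h5 | h5
        · exact absurd h5 h1
        · rw [← h5]; exact h4
        · exact trans_of WellOrderingRel h5 h4
    have hwf : WellFoundedGT (Ch g) := by
      constructor
      have hw := (IsWellFounded.wf (r := (WellOrderingRel : G → G → Prop)))
      have hw2 := InvImage.wf (fun i : Ch g => lr (H i.1) g) hw
      refine Subrelation.wf (r := InvImage WellOrderingRel (fun i : Ch g => lr (H i.1) g)) ?_ hw2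
      intro a b hab
      exact hdec b a hab
    exact Finite.of_wellFoundedLT_wellFoundedGT _
  have hChC : ∀ (i : I) (g g' : G), g' * g⁻¹ ∈ C i → i ∈ Ch g → i ∈ Ch g' := by
    intro i g g' hgg hi
    simp only [hCh, Set.mem_ofPred_eq] at hi ⊢
    rwa [lr_congr (H i) g g' (hCH _ hgg), lr_congr (K i) g g' (hHK _ (hCH _ hgg))]
  refine ⟨{p : I × G // p.1 ∈ Ch p.2 ∧ lr (C p.1) p.2 = p.2},
    fun p => X p.1.1 ∩ RC (C p.1.1) p.1.2, fun p => p.1.1, fun p => hXC _ _, ?_,
    fun p => Set.inter_subset_left, ?_, ?_⟩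
  · intro p
    refine ((hCc p.1.1).image (fun c => c * p.1.2)).mono ?_
    rintro x ⟨-, hx⟩
    exact ⟨x * p.1.2⁻¹, hx, by group⟩
  · intro x
    have h1 : Set.InjOn (fun p : {p : I × G // p.1 ∈ Ch p.2 ∧ lr (C p.1) p.2 = p.2} => p.1.1)
        {p | x ∈ X p.1.1 ∩ RC (C p.1.1) p.1.2} := by
      rintro p ⟨-, hp⟩ p' ⟨-, hp'⟩ hpp
      have h2 : lr (C p.1.1) x = p.1.2 := by
        rw [lr_congr (C p.1.1) p.1.2 x hp]; exact p.2.2
      have h3 : lr (C p'.1.1) x = p'.1.2 := by
        rw [lr_congr (C p'.1.1) p'.1.2 x hp']; exact p'.2.2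
      apply Subtype.ext
      apply Prod.ext
      · exact hpp
      · have h4 : p.1.1 = p'.1.1 := hpp
        rw [← h2, ← h3, h4]
    refine Set.MapsTo.countable_of_injOn (t := Ch x) ?_ h1 (hChfin x).countable
    rintro p ⟨-, hp⟩
    exact hChC p.1.1 p.1.2 x hp p.2.1
  · intro i
    set Fi : Subgroup G := Subgroup.closure ((C i : Set G) ∪ {h i}) with hFi
    refine ⟨(Fi : Set G), closure_countable _ ((hCc i).union (Set.countable_singleton _)), ?_⟩
    have hCFi : C i ≤ Fi := fun c hc => Subgroup.subset_closure (Or.inl hc)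
    have hhFi : h i ∈ Fi := Subgroup.subset_closure (Or.inr rfl)
    intro S hS
    rw [Set.eq_univ_iff_forall]
    intro g
    have hex : ∃ g1 : G, g1 * g⁻¹ ∈ Fi ∧ i ∈ Ch g1 := by
      by_contra hcon
      push Not at hcon
      have h1 := hcon g (by simp)
      have h2 := hcon (h i * g) (by simpa using hhFi)
      simp only [hCh, Set.mem_ofPred_eq, not_not] at h1 h2
      have h3 : lr (K i) (h i * g) = lr (K i) g := lr_congr _ _ _ (by simpa using hhK i)
      have h4 : lr (H i) (h i * g) = lr (H i) g := by rw [h2, h3, h1]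
      have h5 := of_lr_eq _ _ _ h4
      have h6 : h i ∈ H i := by simpa using h5
      exact hh i h6
    obtain ⟨g1, hg1, hi1⟩ := hex
    set g2 := lr (C i) g1 with hg2
    have h21 : g2 * g1⁻¹ ∈ C i := lr_mem (C i) g1
    have hi2 : i ∈ Ch g2 := hChC i g1 g2 h21 hi1
    have hlr : lr (C i) g2 = g2 := lr_congr (C i) g1 g2 h21
    obtain ⟨x, hxS, -, hxC⟩ := hS ⟨(i, g2), hi2, hlr⟩ rfl
    have hxC' : x * g2⁻¹ ∈ C i := hxC
    have hxF : x * g⁻¹ ∈ Fi := by
      have h1 : x * g⁻¹ = (x * g2⁻¹) * (g2 * g1⁻¹) * (g1 * g⁻¹) := by group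
      rw [h1]
      exact mul_mem (mul_mem (hCFi hxC') (hCFi h21)) hg1
    refine Set.mem_mul.2 ⟨g * x⁻¹, ?_, x, hxS, by group⟩
    have h1 : g * x⁻¹ = (x * g⁻¹)⁻¹ := by group
    rw [h1]
    exact inv_mem hxF

/-- the version with right translates -/
lemma blocks_right (hκ : ℵ₀ < #G) {I : Type u} [LinearOrder I] [WellFoundedLT I]
    (hI : ∀ i : I, #(Set.Iic i) < #G) (Y : I → Set G)
    (hY : ∀ i, ∃ F : Set G, F.Countable ∧ Y i * F = Set.univ) :
    ∃ (Ib : Type u) (B : Ib → Set G) (a : Ib → I), (∀ p, (B p).Infinite) ∧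
      (∀ p, (B p).Countable) ∧ (∀ p, B p ⊆ Y (a p)) ∧ (∀ x, {p | x ∈ B p}.Countable) ∧
      ∀ j, ∃ F : Set G, F.Countable ∧ ∀ S : Set G,
        (∀ p, a p = j → (S ∩ B p).Nonempty) → S * F = Set.univ := by
  obtain ⟨Ib, B, a, h1, h2, h3, h4, h5⟩ := blocks hκ hI (fun i => (Y i)⁻¹) (by
    intro i
    obtain ⟨F, hF, hF2⟩ := hY i
    exact ⟨F⁻¹, ctb_inv hF, by rw [← mul_inv_rev, hF2, Set.inv_univ]⟩)
  refine ⟨Ib, fun p => (B p)⁻¹, a, fun p => inf_inv (h1 p), fun p => ctb_inv (h2 p), ?_, ?_, ?_⟩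
  · intro p x hx
    have := h3 p (Set.mem_inv.1 hx)
    rwa [Set.mem_inv, inv_inv] at this
  · intro x
    exact h4 x⁻¹
  · intro j
    obtain ⟨F, hF, hF2⟩ := h5 j
    refine ⟨F⁻¹, ctb_inv hF, fun S hS => ?_⟩
    have h6 := hF2 S⁻¹ (by
      intro p hp
      obtain ⟨x, hx1, hx2⟩ := hS p hp
      exact ⟨x⁻¹, Set.inv_mem_inv.2 hx1, hx2⟩)
    have h7 : (F * S⁻¹)⁻¹ = Set.univ := by rw [h6, Set.inv_univ]
    rwa [mul_inv_rev, inv_inv] at h7

end Pool.Agent.Y839.LP
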