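import Pool.Agent.Y839.LP.Blocks

/-!
# Simultaneous partitions of large subsets of a group
-/

set_option autoImplicit false

namespace Pool.Agent.Y839.LP
open scoped Pointwise Cardinal
open Cardinal Pool.Agent.H42R3.KPart

universe u

variable {G : Type u} [Group G]

/-- countably many left translates cover the group -/
def LLg (A : Set G) : Prop := ∃ F : Set G, F.Countable ∧ F * A = Set.univ

/-- countably many right translates cover the group -/
def RLg (A : Set G) : Prop := ∃ F : Set G, F.Countable ∧ A * F = Set.univ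

lemma LLg.mono {A B : Set G} (h : LLg A) (hAB : A ⊆ B) : LLg B := by
  obtain ⟨F, hF, hFA⟩ := h
  exact ⟨F, hF, Set.eq_univ_of_univ_subset (hFA ▸ Set.mul_subset_mul_left hAB)⟩

lemma RLg.mono {A B : Set G} (h : RLg A) (hAB : A ⊆ B) : RLg B := by
  obtain ⟨F, hF, hFA⟩ := h
  exact ⟨F, hF, Set.eq_univ_of_univ_subset (hFA ▸ Set.mul_subset_mul_right hAB)⟩

lemma LLg.infinite (hκ : ℵ₀ < #G) {A : Set G} (h : LLg A) : A.Infinite := by
  obtain ⟨F, hF, hFA⟩ := h
  intro hA
  refine not_countable_univ hκ ?_ hFA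
  rw [← Set.image2_mul]
  exact hF.image2 hA.countable _

lemma RLg.infinite (hκ : ℵ₀ < #G) {A : Set G} (h : RLg A) : A.Infinite := by
  obtain ⟨F, hF, hFA⟩ := h
  intro hA
  refine not_countable_univ hκ ?_ hFA
  rw [← Set.image2_mul]
  exact hA.countable.image2 hF _

lemma LLg.univ : LLg (Set.univ : Set G) :=
  ⟨{1}, Set.countable_singleton _, by simp⟩

lemma RLg.univ : RLg (Set.univ : Set G) :=
  ⟨{1}, Set.countable_singleton _, by simp⟩

/-- refinement for a well-ordered index type -/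
lemma refine_wo (hκ : ℵ₀ < #G) {I : Type u} [LinearOrder I] [WellFoundedLT I]
    (hI : ∀ i : I, #(Set.Iic i) < #G) (X Y : I → Set G) (hX : ∀ i, LLg (X i))
    (hY : ∀ i, RLg (Y i)) :
    ∃ P Q : I → Set G, (∀ i, P i ⊆ X i ∧ LLg (P i)) ∧ (∀ i, Q i ⊆ Y i ∧ RLg (Q i)) ∧
      (∀ i j, i ≠ j → Disjoint (P i) (P j)) ∧ (∀ i j, i ≠ j → Disjoint (Q i) (Q j)) ∧
      ∀ i j, Disjoint (P i) (Q j) := by
  obtain ⟨IX, BX, aX, x1, x2, x3, x4, x5⟩ := blocks hκ hI X hX
  obtain ⟨IY, BY, aY, y1, y2, y3, y4, y5⟩ := blocks_right hκ hI Y hY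
  obtain ⟨B', b1, b2, b3⟩ := disj_inf (Sum.elim BX BY) (by rintro (p | p); exacts [x1 p, y1 p])
    (by rintro (p | p); exacts [x2 p, y2 p]) (by
      intro x
      have : {p | x ∈ Sum.elim BX BY p} = Sum.inl '' {p | x ∈ BX p} ∪ Sum.inr '' {p | x ∈ BY p} := by
        ext p
        rcases p with p | p <;> simp
      rw [this]
      exact ((x4 x).image _).union ((y4 x).image _))
  refine ⟨fun i => ⋃ p ∈ {p | aX p = i}, B' (Sum.inl p), fun i => ⋃ p ∈ {p | aY p = i},
    B' (Sum.inr p), fun i => ⟨?_, ?_⟩, fun i => ⟨?_, ?_⟩, ?_, ?_, ?_⟩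
  · refine Set.iUnion₂_subset fun p hp => (b1 (Sum.inl p)).trans ?_
    have := x3 p
    rw [show aX p = i from hp] at this
    exact this
  · obtain ⟨F, hF, h⟩ := x5 i
    refine ⟨F, hF, h _ fun p hp => ?_⟩
    obtain ⟨x, hx⟩ := (b2 (Sum.inl p)).nonempty
    exact ⟨x, Set.mem_biUnion (show p ∈ {p | aX p = i} from hp) hx, b1 _ hx⟩
  · refine Set.iUnion₂_subset fun p hp => (b1 (Sum.inr p)).trans ?_
    have := y3 p
    rw [show aY p = i from hp] at this
    exact this
  · obtain ⟨F, hF, h⟩ := y5 i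
    refine ⟨F, hF, h _ fun p hp => ?_⟩
    obtain ⟨x, hx⟩ := (b2 (Sum.inr p)).nonempty
    exact ⟨x, Set.mem_biUnion (show p ∈ {p | aY p = i} from hp) hx, b1 _ hx⟩
  · intro i j hij
    rw [Set.disjoint_left]
    intro x hx hx'
    obtain ⟨p, hp, hxp⟩ := Set.mem_iUnion₂.1 hx
    obtain ⟨p', hp', hxp'⟩ := Set.mem_iUnion₂.1 hx'
    refine Set.disjoint_left.1 (b3 (Sum.inl p) (Sum.inl p') ?_) hxp hxp'
    intro h
    apply hij
    have h1 : aX p = i := hp
    have h2 : aX p' = j := hp'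
    rw [← h1, ← h2, Sum.inl_injective h]
  · intro i j hij
    rw [Set.disjoint_left]
    intro x hx hx'
    obtain ⟨p, hp, hxp⟩ := Set.mem_iUnion₂.1 hx
    obtain ⟨p', hp', hxp'⟩ := Set.mem_iUnion₂.1 hx'
    refine Set.disjoint_left.1 (b3 (Sum.inr p) (Sum.inr p') ?_) hxp hxp'
    intro h
    apply hij
    have h1 : aY p = i := hp
    have h2 : aY p' = j := hp'
    rw [← h1, ← h2, Sum.inr_injective h]
  · intro i j
    rw [Set.disjoint_left]
    intro x hx hx'
    obtain ⟨p, hp, hxp⟩ := Set.mem_iUnion₂.1 hx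
    obtain ⟨p', hp', hxp'⟩ := Set.mem_iUnion₂.1 hx'
    exact Set.disjoint_left.1 (b3 (Sum.inl p) (Sum.inr p') (by simp)) hxp hxp'

/-- At most `|G|` infinite large subsets of `G` have pairwise disjoint infinite large subsets. -/
theorem refine_all [Infinite G] {J J' : Type u} (hJ : #J ≤ #G) (hJ' : #J' ≤ #G) (X : J → Set G)
    (Y : J' → Set G) (hX : ∀ i, (X i).Infinite ∧ LLg (X i))
    (hY : ∀ i, (Y i).Infinite ∧ RLg (Y i)) :
    ∃ (P : J → Set G) (Q : J' → Set G), (∀ i, P i ⊆ X i ∧ (P i).Infinite ∧ LLg (P i)) ∧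
      (∀ i, Q i ⊆ Y i ∧ (Q i).Infinite ∧ RLg (Q i)) ∧
      (∀ i j, i ≠ j → Disjoint (P i) (P j)) ∧ (∀ i j, i ≠ j → Disjoint (Q i) (Q j)) ∧
      ∀ i j, Disjoint (P i) (Q j) := by
  classical
  rcases (Cardinal.infinite_iff.1 (inferInstance : Infinite G)).eq_or_lt with h | hκ
  · have hG : Countable G := Cardinal.mk_le_aleph0_iff.1 h.symm.le
    have c1 : Countable J := Cardinal.mk_le_aleph0_iff.1 (hJ.trans h.symm.le)
    have c2 : Countable J' := Cardinal.mk_le_aleph0_iff.1 (hJ'.trans h.symm.le)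
    obtain ⟨B', b1, b2, b3⟩ := disj_inf (Sum.elim X Y)
      (by rintro (p | p); exacts [(hX p).1, (hY p).1]) (fun p => Set.to_countable _)
      (fun x => Set.to_countable _)
    have l1 : ∀ S : Set G, S.Nonempty → LLg S := by
      rintro S ⟨s, hs⟩
      refine ⟨Set.univ, Set.countable_univ, ?_⟩
      rw [Set.eq_univ_iff_forall]
      intro g
      exact Set.mem_mul.2 ⟨g * s⁻¹, trivial, s, hs, by group⟩
    have l2 : ∀ S : Set G, S.Nonempty → RLg S := by
      rintro S ⟨s, hs⟩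
      refine ⟨Set.univ, Set.countable_univ, ?_⟩
      rw [Set.eq_univ_iff_forall]
      intro g
      exact Set.mem_mul.2 ⟨s, hs, s⁻¹ * g, trivial, by group⟩
    refine ⟨fun i => B' (Sum.inl i), fun i => B' (Sum.inr i),
      fun i => ⟨b1 (Sum.inl i), b2 _, l1 _ (b2 _).nonempty⟩,
      fun i => ⟨b1 (Sum.inr i), b2 _, l2 _ (b2 _).nonempty⟩, ?_, ?_, ?_⟩
    · intro i j hij
      exact b3 _ _ fun h => hij (Sum.inl_injective h)
    · intro i j hij
      exact b3 _ _ fun h => hij (Sum.inr_injective h)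
    · intro i j
      exact b3 _ _ (by simp)
  · set I : Type u := (#G).ord.ToType with hIdef
    have hIc : #I = #G := Cardinal.mk_ord_toType _
    obtain ⟨e⟩ : Nonempty (J ↪ I) := by rw [← Cardinal.le_def, hIc]; exact hJ
    obtain ⟨e'⟩ : Nonempty (J' ↪ I) := by rw [← Cardinal.le_def, hIc]; exact hJ'
    have hIio : ∀ i : I, #(Set.Iio i) < #G := by
      intro i
      have := Cardinal.mk_Iio_lt i (by rw [hIc]; exact (Ordinal.type_toType _).symm)
      rwa [hIc] at this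
    have hIic : ∀ i : I, #(Set.Iic i) < #G := by
      intro i
      have h1 : Set.Iic i = Set.Iio i ∪ {i} := by
        ext x
        simp only [Set.mem_Iic, Set.mem_union, Set.mem_Iio, Set.mem_singleton_iff]
        exact le_iff_lt_or_eq
      rw [h1]
      refine (Cardinal.mk_union_le _ _).trans_lt ?_
      apply Cardinal.add_lt_of_lt hκ.le (hIio i)
      rw [Cardinal.mk_singleton]
      exact Cardinal.one_lt_aleph0.trans hκ
    have hX' : ∀ i, LLg (Function.extend e X (fun _ => Set.univ) i) := by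
      intro i
      by_cases hi : ∃ j, e j = i
      · obtain ⟨j, rfl⟩ := hi
        rw [e.injective.extend_apply]
        exact (hX j).2
      · rw [Function.extend_apply' _ _ _ hi]
        exact LLg.univ
    have hY' : ∀ i, RLg (Function.extend e' Y (fun _ => Set.univ) i) := by
      intro i
      by_cases hi : ∃ j, e' j = i
      · obtain ⟨j, rfl⟩ := hi
        rw [e'.injective.extend_apply]
        exact (hY j).2
      · rw [Function.extend_apply' _ _ _ hi]
        exact RLg.univ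
    obtain ⟨P, Q, p1, p2, p3, p4, p5⟩ := refine_wo hκ hIic _ _ hX' hY'
    refine ⟨fun j => P (e j), fun j => Q (e' j), fun j => ⟨?_, (p1 _).2.infinite hκ, (p1 _).2⟩,
      fun j => ⟨?_, (p2 _).2.infinite hκ, (p2 _).2⟩, fun i j hij => p3 _ _ fun h =>
      hij (e.injective h), fun i j hij => p4 _ _ fun h => hij (e'.injective h),
      fun i j => p5 _ _⟩
    · have := (p1 (e j)).1
      rwa [e.injective.extend_apply] at this
    · have := (p2 (e' j)).1
      rwa [e'.injective.extend_apply] at this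

/-- **Main theorem.** -/
theorem main [Infinite G] {J J' : Type u} (hJ : #J ≤ #G) (hJ' : #J' ≤ #G) (X : J → Set G)
    (Y : J' → Set G) (hX : ∀ i, (X i).Infinite ∧ LLg (X i))
    (hY : ∀ i, (Y i).Infinite ∧ RLg (Y i)) :
    ∃ P : Set (Set G), Setoid.IsPartition P ∧ #P = #G ∧ ∀ A ∈ P, (LLg A ∧ RLg A) ∧
      (∀ j, (A ∩ X j).Infinite ∧ LLg (A ∩ X j)) ∧ ∀ j, (A ∩ Y j).Infinite ∧ RLg (A ∩ Y j) := by
  classical
  have hω : ℵ₀ ≤ #G := Cardinal.infinite_iff.1 (inferInstance : Infinite G)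
  have hprod : ∀ T : Type u, #T ≤ #G → #(Option T × G) ≤ #G := by
    intro T hT
    rw [Cardinal.mk_prod, Cardinal.lift_id, Cardinal.lift_id, Cardinal.mk_option]
    refine (mul_le_mul' (Cardinal.add_le_of_le hω hT (Cardinal.one_le_aleph0.trans hω))
      le_rfl).trans (Cardinal.mul_eq_self hω).le
  have hinf : (Set.univ : Set G).Infinite := Set.infinite_univ
  obtain ⟨A, B, hA, hB, hAA, hBB, hAB⟩ := refine_all (hprod J hJ) (hprod J' hJ')
    (fun p : Option J × G => p.1.elim Set.univ X) (fun p : Option J' × G => p.1.elim Set.univ Y)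
    (by
      rintro ⟨_ | j, g⟩
      · exact ⟨hinf, LLg.univ⟩
      · exact hX j)
    (by
      rintro ⟨_ | j, g⟩
      · exact ⟨hinf, RLg.univ⟩
      · exact hY j)
  set D : G → Set G := fun g => (⋃ o : Option J, A (o, g)) ∪ ⋃ o : Option J', B (o, g) with hD
  set U : Set G := (⋃ i, D i)ᶜ with hU
  set C : G → Set G := fun i => if i = 1 then D i ∪ U else D i with hC
  have hDdisj : ∀ i j x, x ∈ D i → x ∈ D j → i = j := by
    intro i j x hi hj
    by_contra hij
    rcases hi with hi | hi <;> rcases hj with hj | hj <;>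
      obtain ⟨o, ho⟩ := Set.mem_iUnion.1 hi <;> obtain ⟨o', ho'⟩ := Set.mem_iUnion.1 hj
    · exact Set.disjoint_left.1 (hAA (o, i) (o', j) (by
        intro h; exact hij (Prod.ext_iff.1 h).2)) ho ho'
    · exact Set.disjoint_left.1 (hAB _ _) ho ho'
    · exact Set.disjoint_left.1 (hAB _ _) ho' ho
    · exact Set.disjoint_left.1 (hBB (o, i) (o', j) (by
        intro h; exact hij (Prod.ext_iff.1 h).2)) ho ho'
  have hDC : ∀ i, D i ⊆ C i := by
    intro i x hx
    simp only [hC]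
    split_ifs
    · exact Or.inl hx
    · exact hx
  have hCdisj : ∀ i j x, x ∈ C i → x ∈ C j → i = j := by
    intro i j x hi hj
    simp only [hC] at hi hj
    split_ifs at hi hj with h1 h2 h2
    · rw [h1, h2]
    · rcases hi with hi | hi
      · exact hDdisj i j x hi hj
      · exact absurd (Set.mem_iUnion.2 ⟨j, hj⟩) hi
    · rcases hj with hj | hj
      · exact hDdisj i j x hi hj
      · exact absurd (Set.mem_iUnion.2 ⟨i, hi⟩) hj
    · exact hDdisj i j x hi hj
  have hCcov : ∀ x, ∃ i, x ∈ C i := by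
    intro x
    by_cases hx : x ∈ ⋃ i, D i
    · obtain ⟨i, hi⟩ := Set.mem_iUnion.1 hx
      exact ⟨i, hDC i hi⟩
    · refine ⟨1, ?_⟩
      simp only [hC, if_true]
      exact Or.inr hx
  have hAC : ∀ o i, A (o, i) ⊆ C i := fun o i x hx =>
    hDC i (Or.inl (Set.mem_iUnion.2 ⟨o, hx⟩))
  have hBC : ∀ o i, B (o, i) ⊆ C i := fun o i x hx =>
    hDC i (Or.inr (Set.mem_iUnion.2 ⟨o, hx⟩))
  have hCne : ∀ i, (C i).Nonempty := by
    intro i
    obtain ⟨x, hx⟩ := (hA (none, i)).2.1.nonempty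
    exact ⟨x, hAC _ _ hx⟩
  have hCinj : Function.Injective C := by
    intro i j hij
    obtain ⟨x, hx⟩ := hCne i
    exact hCdisj i j x hx (hij ▸ hx)
  refine ⟨Set.range C, ⟨?_, ?_⟩, ?_, ?_⟩
  · rintro ⟨i, hi⟩
    obtain ⟨x, hx⟩ := hCne i
    rw [hi] at hx
    exact hx
  · intro x
    obtain ⟨i, hi⟩ := hCcov x
    refine ⟨C i, ⟨⟨i, rfl⟩, hi⟩, ?_⟩
    rintro _ ⟨⟨j, rfl⟩, hj⟩
    rw [hCdisj j i x hj hi]
  · rw [Cardinal.mk_range_eq C hCinj]
  · rintro _ ⟨i, rfl⟩
    refine ⟨⟨(hA (none, i)).2.2.mono (hAC _ _), (hB (none, i)).2.2.mono (hBC _ _)⟩, fun j => ?_,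
      fun j => ?_⟩
    · have h1 : A (some j, i) ⊆ C i ∩ X j := fun x hx => ⟨hAC _ _ hx, (hA (some j, i)).1 hx⟩
      exact ⟨(hA (some j, i)).2.1.mono h1, (hA (some j, i)).2.2.mono h1⟩
    · have h1 : B (some j, i) ⊆ C i ∩ Y j := fun x hx => ⟨hBC _ _ hx, (hB (some j, i)).1 hx⟩
      exact ⟨(hB (some j, i)).2.1.mono h1, (hB (some j, i)).2.2.mono h1⟩

end Pool.Agent.Y839.LP
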